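import Pool.Agent.X256.CT.Basic
import Pool.Agent.X256.Word.Solomon
import Pool.Agent.Helper884.IC.Basic

/-!
# Quotients of semi-rational groups are semi-rational
-/

open scoped BigOperators Classical
open Representation Pool.Agent.Helper884.IC Pool.Agent.X256.CT

noncomputable section

namespace Pool.Agent.Results.MP_405423_al.Quotients

/-- the number of tuples `x` in `G^r` with `w(x) = g` -/
def Nw (G : Type) [Group G] {r : ℕ} (w : FreeGroup (Fin r)) (g : G) : ℕ :=
  Nat.card {x : Fin r → G // FreeGroup.lift x w = g}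

/-- a class function all of whose coefficients on the irreducible characters are integers -/
def IsGenChar {G : Type} [Group G] [Fintype G] (f : G → ℂ) : Prop :=
  ∀ chi : G → ℂ, IsIrrChar chi →
    ∃ n : ℤ, (Nat.card G : ℂ)⁻¹ * ∑ g : G, f g * chi g⁻¹ = n

/-- `G` is semi-rational: every `N_{w,G}` is a generalized character -/
def SemiRational (G : Type) [Group G] [Fintype G] : Prop :=
  ∀ r : ℕ, 1 ≤ r → ∀ w : FreeGroup (Fin r), IsGenChar (fun g : G => (Nw G w g : ℂ))

lemma sum_Nw {G : Type} [Group G] [Fintype G] {r : ℕ} (w : FreeGroup (Fin r)) (f : G → ℂ) :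
    ∑ g : G, (Nw G w g : ℂ) * f g = ∑ x : Fin r → G, f (FreeGroup.lift x w) := by
  rw [← Finset.sum_fiberwise (s := Finset.univ) (g := fun x : Fin r → G => FreeGroup.lift x w)]
  refine Finset.sum_congr rfl fun g _ => ?_
  rw [Finset.sum_congr rfl (g := fun _ => f g)]
  · rw [Finset.sum_const, nsmul_eq_mul]
    congr 2
    unfold Nw
    rw [Nat.card_eq_fintype_card, Fintype.card_subtype]
  · intro x hx
    rw [(Finset.mem_filter.mp hx).2]

lemma sum_quot {G : Type} [Group G] [Fintype G] (N : Subgroup G) [N.Normal]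
    {r : ℕ} (F : (Fin r → G ⧸ N) → ℂ) :
    ∑ x : Fin r → G, F (fun i => (x i : G ⧸ N)) = (Nat.card N : ℂ) ^ r * ∑ y, F y := by
  rw [← Finset.sum_fiberwise (s := Finset.univ) (g := fun (x : Fin r → G) i => (x i : G ⧸ N)),
    Finset.mul_sum]
  refine Finset.sum_congr rfl fun y _ => ?_
  rw [Finset.sum_congr rfl (g := fun _ => F y)]
  · rw [Finset.sum_const, nsmul_eq_mul]
    congr 1
    have h1 : (Finset.univ.filter (fun x : Fin r → G => (fun i => (x i : G ⧸ N)) = y)).card =
        Nat.card {x : Fin r → G // (fun i => (x i : G ⧸ N)) = y} := by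
      rw [Nat.card_eq_fintype_card, Fintype.card_subtype]
    rw [h1]
    have h2 : Nat.card {x : Fin r → G // (fun i => (x i : G ⧸ N)) = y} =
        Nat.card (Fin r → N) := by
      choose z hz using fun i => QuotientGroup.mk_surjective (y i)
      refine Nat.card_congr ?_
      exact {
        toFun := fun x i => ⟨(z i)⁻¹ * x.1 i, by
          have := congrFun x.2 i
          rw [← hz i] at this
          exact QuotientGroup.eq.mp this.symm⟩
        invFun := fun n => ⟨fun i => z i * n i, by
          funext i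
          rw [← hz i]
          exact QuotientGroup.mk_mul_of_mem _ (n i).2⟩
        left_inv := by
          intro x
          apply Subtype.ext
          funext i
          simp
        right_inv := by
          intro n
          funext i
          apply Subtype.ext
          simp }
    rw [h2, Nat.card_fun]
    simp
  · intro x hx
    rw [(Finset.mem_filter.mp hx).2]

lemma integral_of_two {Q : Type} [Group Q] [Fintype Q] {n : ℕ} (w : FreeGroup (Fin (n + 2)))
    (f : Q → ℂ) (hf : IsClass f) (hint : ∀ g, IsIntegral ℤ (f g)) :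
    IsIntegral ℤ ((Nat.card Q : ℂ)⁻¹ * ∑ x : Fin (n + 2) → Q, f (FreeGroup.lift x w)) := by
  rw [← Finset.sum_fiberwise (s := Finset.univ)
    (g := fun x : Fin (n + 2) → Q => ConjClasses.mk (FreeGroup.lift x w)), Finset.mul_sum]
  refine IsIntegral.sum _ fun C _ => ?_
  obtain ⟨c, rfl⟩ := ConjClasses.mk_surjective C
  rw [Finset.sum_congr rfl (g := fun _ => f c)]
  · rw [Finset.sum_const, nsmul_eq_mul]
    have hK : ∀ (q k : Q), k ∈ {k | ConjClasses.mk k = ConjClasses.mk c} →
        q * k * q⁻¹ ∈ {k | ConjClasses.mk k = ConjClasses.mk c} := by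
      intro q k hk
      simp only [Set.mem_setOf_eq] at hk ⊢
      rw [← hk, ConjClasses.mk_eq_mk_iff_isConj, isConj_comm]
      exact isConj_iff.mpr ⟨q, rfl⟩
    obtain ⟨m, hm⟩ := Pool.Agent.X256.Word.dvd_cnt _ hK w
    have h1 : (Finset.univ.filter (fun x : Fin (n + 2) → Q =>
        ConjClasses.mk (FreeGroup.lift x w) = ConjClasses.mk c)).card = Nat.card Q * m := by
      rw [← hm]
      unfold Pool.Agent.X256.Word.cnt
      rw [Nat.card_eq_fintype_card, Fintype.card_subtype]
      rfl
    rw [h1]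
    push_cast
    rw [mul_assoc, ← mul_assoc, inv_mul_cancel₀ cardG_ne, one_mul]
    exact (isIntegral_algebraMap (x := (m : ℤ))).mul (hint c)
  · intro x hx
    have h2 := (Finset.mem_filter.mp hx).2
    rw [ConjClasses.mk_eq_mk_iff_isConj, isConj_iff] at h2
    obtain ⟨y, hy⟩ := h2
    rw [← hy, hf]

/-- **Main theorem.** Every quotient of a finite semi-rational group is semi-rational. -/
theorem result (G : Type) [Group G] [Fintype G] (N : Subgroup G) [N.Normal]
    (hG : SemiRational G) : SemiRational (G ⧸ N) := by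
  intro r hr w chi hchi
  rw [sum_Nw w (fun g => chi g⁻¹)]
  set chi' : G → ℂ := fun g => chi (QuotientGroup.mk' N g) with hchi'
  have hc' : IsChar chi' := (IsChar.of_irr hchi).comp (QuotientGroup.mk' N)
  obtain ⟨m, hm⟩ := B_int_of_irr (hG r hr w) hc'
  have h1 : B (fun g : G => (Nw G w g : ℂ)) chi' = (Nat.card G : ℂ)⁻¹ *
      ((Nat.card N : ℂ) ^ r * ∑ y : Fin r → G ⧸ N, chi (FreeGroup.lift y w)⁻¹) := by
    unfold B
    congr 1
    rw [sum_Nw w (fun g => chi' g⁻¹), ← sum_quot N (fun y => chi (FreeGroup.lift y w)⁻¹)]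
    refine Finset.sum_congr rfl fun x _ => ?_
    have h2 : QuotientGroup.mk' N (FreeGroup.lift x w) =
        FreeGroup.lift (fun i => (x i : G ⧸ N)) w := by
      have : (QuotientGroup.mk' N).comp (FreeGroup.lift x) =
          FreeGroup.lift (fun i => (x i : G ⧸ N)) := by
        apply FreeGroup.ext_hom
        intro i
        simp
      exact DFunLike.congr_fun this w
    simp only [hchi', map_inv, h2]
  set T := ∑ y : Fin r → G ⧸ N, chi (FreeGroup.lift y w)⁻¹ with hT
  have hcard : (Nat.card G : ℂ) = Nat.card (G ⧸ N) * Nat.card N := by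
    rw [Subgroup.card_eq_card_quotient_mul_card_subgroup N]
    push_cast
    ring
  have hN : (Nat.card N : ℂ) ≠ 0 := by exact_mod_cast Nat.card_pos.ne'
  have hQ : (Nat.card (G ⧸ N) : ℂ) ≠ 0 := by exact_mod_cast Nat.card_pos.ne'
  obtain ⟨s, rfl⟩ : ∃ s, r = s + 1 := ⟨r - 1, by omega⟩
  have h3 : (m : ℂ) = (Nat.card N : ℂ) ^ s * ((Nat.card (G ⧸ N) : ℂ)⁻¹ * T) := by
    rw [← hm, h1, hcard, pow_succ]
    field_simp
  rcases s with _ | s
  · refine ⟨m, ?_⟩
    rw [h3]
    simp
  · have hint : IsIntegral ℤ ((Nat.card (G ⧸ N) : ℂ)⁻¹ * T) := by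
      refine integral_of_two w (fun g => chi g⁻¹) ?_ ?_
      · intro g y
        have := hchi.isClass g⁻¹ y
        simp only
        rw [← this]
        congr 1
        group
      · intro g
        exact Pool.Agent.Y63.AWC.isIntegral_char hchi g⁻¹
    have h4 : (Nat.card (G ⧸ N) : ℂ)⁻¹ * T = (m : ℂ) / (((Nat.card N : ℤ) ^ (s + 1) : ℤ) : ℂ) := by
      rw [h3]
      push_cast
      field_simp
    rw [h4] at hint ⊢
    have hb : ((Nat.card N : ℤ) ^ (s + 1) : ℤ) ≠ 0 := by
      apply pow_ne_zero
      exact_mod_cast Nat.card_pos.ne'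
    obtain ⟨c, hc⟩ := int_of_integral_rat hb hint
    refine ⟨c, ?_⟩
    have hb' : ((((Nat.card N : ℤ) ^ (s + 1) : ℤ)) : ℂ) ≠ 0 := by exact_mod_cast hb
    rw [hc]
    rw [Int.cast_mul, mul_div_cancel_left₀ _ hb']

end Pool.Agent.Results.MP_405423_al.Quotients
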